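import Pool.Agent.N929.EG.Three
import Pool.Agent.N546.EG.CNT3

/-!
Self-avoiding walks on `ℤ³`: the differences of order `r` of `log (c_n / μ^n)`, with step `2` in the
number `n` of steps, are `O((n^(-1/3) exp(K (log log n)^2))^r)`, for every `r`.
-/

set_option autoImplicit false

namespace Pool.Agent.Results.MP_794e6e_pr.AllOrders

open Filter Topology

/-- the number of `n`-step self-avoiding nearest-neighbour walks on `ℤ³` from `0` -/
noncomputable def c (n : ℕ) : ℕ :=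
  Nat.card {f : Fin (n + 1) → (Fin 3 → ℤ) //
    f 0 = 0 ∧ Function.Injective f ∧
    ∀ i : Fin n, ∑ j : Fin 3, |f i.succ j - f i.castSucc j| = 1}

/-- **Theorem.** On `ℤ³` the limit `μ` of `c_n^(1/n)` exists and is positive, and there is a constant
`K` such that for every `r ≥ 1` there is a constant `C` with: for all `n ≥ 3` the difference of order
`r` of the sequence `log (c_m / μ^m)`, with step `2`, at `n`, is at most
`C (n^(-1/3) exp(K (log log n)^2))^r` in absolute value. -/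
theorem result : ∃ μ : ℝ, 0 < μ ∧
    Tendsto (fun n : ℕ => (c n : ℝ) ^ (1 / (n : ℝ))) atTop (𝓝 μ) ∧
    ∃ K : ℝ, ∀ r : ℕ, 1 ≤ r → ∃ C : ℝ, ∀ n : ℕ, 3 ≤ n →
      |∑ i ∈ Finset.range (r + 1), (-1 : ℝ) ^ i * (r.choose i : ℝ) *
        Real.log ((c (n + 2 * i) : ℝ) / μ ^ (n + 2 * i))| ≤
        C * ((n : ℝ) ^ (-(1 / 3) : ℝ) * Real.exp (K * Real.log (Real.log n) ^ 2)) ^ r := by
  have hC : ∀ n, c n = Pool.Agent.H46R2.K3.c n := fun n => Pool.Agent.H46R2.K3.P.card_eq n
  refine ⟨Pool.Agent.H46R2.K3.mu, lt_of_lt_of_le one_pos Pool.Agent.H46R2.K3.P.one_le_mu, ?_, ?_⟩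
  · simpa only [hC] using Pool.Agent.H46R2.K3.P.tendsto_c
  · obtain ⟨K, -, h⟩ := Pool.Agent.N929.EG.count3 Pool.Agent.N546.EG.cnt3
    refine ⟨K, fun r hr => ?_⟩
    obtain ⟨C, -, h'⟩ := h r hr
    refine ⟨C, fun n hn => ?_⟩
    simp only [hC]
    exact h' n hn

end Pool.Agent.Results.MP_794e6e_pr.AllOrders
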