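import Pool.Agent.N929.AC.Three

/-!
Self-avoiding walks on `ℤ³`: analytic continuation, across the circle of convergence, of the
generating functions of the numbers of walks, of the two-point function and of the moments of the
end-to-end distance.
-/

set_option autoImplicit false

namespace Pool.Agent.Results.MP_794e6e_pr.AnalyticContinuation

open Filter Topology

/-- `ω` is an `n`-step self-avoiding walk on `ℤ³` started at the origin. -/
def IsSAW (n : ℕ) (ω : Fin (n + 1) → Fin 3 → ℤ) : Prop :=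
  ω 0 = 0 ∧ (∀ i : Fin n, ∑ j, |ω i.succ j - ω i.castSucc j| = 1) ∧ Function.Injective ω

/-- The number of `n`-step self-avoiding walks from the origin. -/
noncomputable def c (n : ℕ) : ℕ := {ω | IsSAW n ω}.ncard

/-- The Euclidean norm of a point of `ℤ³`. -/
noncomputable def norm2 (x : Fin 3 → ℤ) : ℝ := Real.sqrt (∑ j, (x j : ℝ) ^ 2)

/-- The sum over the `n`-step self-avoiding walks of a function `g` of the end point. -/
noncomputable def endSum (g : (Fin 3 → ℤ) → ℝ) (n : ℕ) : ℝ :=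
  ∑ᶠ ω ∈ {ω | IsSAW n ω}, g (ω (Fin.last n))

/-- `cos (2 arg z)` for `z ≠ 0` -/
noncomputable def cos2 (z : ℂ) : ℝ := (z ^ 2).re / ‖z‖ ^ 2

/-- The domain `|z| < (1 + δ (1 - cos (2 arg z))) / μ`: the disc of convergence enlarged at all
points of the circle of convergence except `±1/μ`. -/
def Dom (μ δ : ℝ) : Set ℂ := {z | μ * ‖z‖ < 1 + δ * (1 - cos2 z)}

/-- The point `(1 - δ (1 - cos (2 arg z))) / μ` of the interval of convergence. -/
noncomputable def inner (μ δ : ℝ) (z : ℂ) : ℝ := (1 - δ * (1 - cos2 z)) / μ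

/-- `f` is a holomorphic extension of the power series with coefficients `u n` from the disc
`|z| < 1/μ` to `Dom μ δ`. -/
def Extends (μ δ : ℝ) (u : ℕ → ℝ) (f : ℂ → ℂ) : Prop :=
  DifferentiableOn ℂ f (Dom μ δ) ∧
    ∀ z : ℂ, μ * ‖z‖ < 1 → HasSum (fun n => (u n : ℂ) * z ^ n) (f z)

open TH966.KO TH966.KO.BR Pool.Agent.N929.AC

/-- **Theorem.** On `ℤ³` let `c n` be the number of `n`-step self-avoiding walks and `μ` the limit of
`(c n)^(1/n)`. There is `δ > 0` such that the generating function `∑ c n z^n`, whose radius of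
convergence is `1/μ`, and for every real `p ≥ 0` the generating function `∑ (∑_ω |ω(n)|^p) z^n` of
the moments of order `p` extend holomorphically to the connected open domain `Dom μ δ`, which
contains the open disc of convergence and all points of the circle `|z| = 1/μ` except `z = 1/μ` and
`z = -1/μ`. The same holds for all nonnegative end point functionals of polynomial growth (for
instance the two-point functions `∑ #{ω : ω(n) = x} z^n`), with a bound on the whole domain. -/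
theorem result : ∃ μ : ℝ, 1 ≤ μ ∧ Tendsto (fun n : ℕ => (c n : ℝ) ^ (1 / (n : ℝ))) atTop (𝓝 μ) ∧
    ∃ δ : ℝ, 0 < δ ∧
    (IsOpen (Dom μ δ) ∧ IsPreconnected (Dom μ δ) ∧ (∀ z : ℂ, μ * ‖z‖ < 1 → z ∈ Dom μ δ) ∧
      ∀ z : ℂ, μ * ‖z‖ = 1 → z ≠ ((1 / μ : ℝ) : ℂ) → z ≠ ((-(1 / μ) : ℝ) : ℂ) → z ∈ Dom μ δ) ∧
    (∃ f : ℂ → ℂ, Extends μ δ (fun n => (c n : ℝ)) f) ∧
    (∀ p : ℝ, 0 ≤ p → ∃ f : ℂ → ℂ, Extends μ δ (endSum (fun x => norm2 x ^ p)) f) ∧
    ∀ (C₀ : ℝ) (p : ℕ), 0 ≤ C₀ → ∃ C : ℝ, 0 < C ∧ ∀ g : (Fin 3 → ℤ) → ℝ,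
      (∀ x, 0 ≤ g x ∧ g x ≤ C₀ * (1 + norm2 x) ^ p) →
      ∃ f : ℂ → ℂ, Extends μ δ (endSum g) f ∧
        ∀ z ∈ Dom μ δ, z ≠ 0 → cos2 z < 1 →
          Summable (fun n => endSum g n * inner μ δ z ^ n) ∧
          ‖f z‖ ≤ C + ∑' n, endSum g n * inner μ δ z ^ n := by
  obtain ⟨hμ, δ, hδ, ⟨d1, d2, d3, d4⟩, h⟩ := three_ac
  have hμ0 : 0 < TH966.KO.μ := by linarith
  have hC : ∀ n, c n = Pool.Agent.H46R2.K3.c n := fun n => TH966.KO.ncard_eq n
  have hgen : ∀ (C₀ : ℝ) (p : ℕ), 0 ≤ C₀ → ∃ C : ℝ, 0 < C ∧ ∀ g : (Fin 3 → ℤ) → ℝ,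
      (∀ x, 0 ≤ g x ∧ g x ≤ C₀ * (1 + norm2 x) ^ p) →
      ∃ f : ℂ → ℂ, Extends TH966.KO.μ δ (endSum g) f ∧
        ∀ z ∈ Dom TH966.KO.μ δ, z ≠ 0 → cos2 z < 1 →
          Summable (fun n => endSum g n * inner TH966.KO.μ δ z ^ n) ∧
          ‖f z‖ ≤ C + ∑' n, endSum g n * inner TH966.KO.μ δ z ^ n := by
    intro C₀ p hC₀
    obtain ⟨C, hC, h'⟩ := h C₀ p hC₀
    refine ⟨C, hC, fun g hg => ?_⟩
    obtain ⟨f, h3, h4, h5⟩ := h' g hg
    exact ⟨f, ⟨h3, h4⟩, h5⟩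
  refine ⟨TH966.KO.μ, hμ, ?_, δ, hδ, ⟨d1, d2, d3, fun z hz z1 z2 => ?_⟩, ?_,
    fun p hp => ?_, hgen⟩
  · have := Pool.Agent.H46R2.K3.P.tendsto_c
    simp only [hC]
    exact this
  · refine d4 z hz fun h3 => ?_
    have hn : ‖z‖ = 1 / TH966.KO.μ := by field_simp; linarith
    rw [hn] at h3
    rcases sq_eq_sq_iff_eq_or_eq_neg.1 h3 with h4 | h4
    · exact z1 h4
    · exact z2 (by rw [h4]; push_cast; rfl)
  · obtain ⟨C, -, h'⟩ := hgen 1 0 zero_le_one
    obtain ⟨f, h3, -⟩ := h' (fun _ => 1) (fun x => by simp)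
    have e : endSum (fun _ => 1) = fun n => (c n : ℝ) := by
      funext n
      unfold endSum
      have h4 := sum_eq3 n (fun _ => 1)
      rw [Finset.sum_const, nsmul_eq_mul, mul_one] at h4
      refine h4.trans ?_
      rw [hC]
      exact_mod_cast card_SS n
    rw [e] at h3
    exact ⟨f, h3⟩
  · obtain ⟨C, -, h'⟩ := hgen 1 ⌈p⌉₊ zero_le_one
    obtain ⟨f, h3, -⟩ := h' (fun x => norm2 x ^ p) (fun x => by
      have h0 : 0 ≤ norm2 x := Real.sqrt_nonneg _
      refine ⟨by positivity, ?_⟩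
      have hX : 1 ≤ 1 + norm2 x := by linarith
      rw [one_mul]
      calc norm2 x ^ p ≤ (1 + norm2 x) ^ p := Real.rpow_le_rpow h0 (by linarith) hp
        _ ≤ (1 + norm2 x) ^ ((⌈p⌉₊ : ℕ) : ℝ) := by
            gcongr
            exact Nat.le_ceil p
        _ = _ := by rw [Real.rpow_natCast])
    exact ⟨f, h3⟩

end Pool.Agent.Results.MP_794e6e_pr.AnalyticContinuation
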