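import Pool.Agent.N226.SX.Form
import Pool.Agent.Results.MP_794e6e_pr.AllOrders
import Pool.Agent.H46R2.K3.DBL

/-!
# Self-avoiding walks on `ℤ³`: the asymptotic form and expansions along sparse lengths
-/

set_option autoImplicit false

namespace Pool.Agent.Results.MP_794e6e_pr.ExpansionsFromSparseLengths

open Finset Filter Topology Pool.Agent.Results.MP_794e6e_pr.AllOrders

/-- The expansion `β log n + ∑ a_i n ^ (-θ_i)`. -/
noncomputable def expansion (q : ℕ) (β : ℝ) (a θ : Fin q → ℝ) (n : ℕ) : ℝ :=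
  β * Real.log n + ∑ i, a i * (n : ℝ) ^ (-(θ i))

/-- Let `c n` be the number of `n`-step self-avoiding walks on `ℤ³` and `μ = lim (c n)^(1/n)`. Let
`ρ` be `0` or `1` (or any integer) and let `u_j → ∞` be integers with gaps at most `u_j ^ α` for some
`α < 1 / 3` (for instance `u_j = ⌊j ^ 1.49⌋`).

(1) If `c n ~ A μ ^ n n ^ β` along the lengths `n = 2 u_j + ρ`, with any `A > 0` and real `β`, then
`c n ~ A μ ^ n n ^ β` along all `n = 2 k + ρ`.

(2) If `log (c n / μ ^ n) = β log n + ∑ a_i n ^ (-θ_i) + O (n ^ (-M))` along `n = 2 u_j + ρ`, a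
finite expansion with any real exponents `θ_i ≥ 0` and `M ≥ 0`, then for every `s ≥ 0` and
`b < 1 / 3` the `s`-th difference (with step two) of
`log (c n / μ ^ n) - β log n - ∑ a_i n ^ (-θ_i)` is `O (n ^ (-M - b s))`, along all `n = 2 k + ρ`.
For `s = 0` the expansion holds for all these `n` with the same error term. -/
theorem result : ∃ μ : ℝ, 0 < μ ∧
    Tendsto (fun n : ℕ => (c n : ℝ) ^ (1 / (n : ℝ))) atTop (𝓝 μ) ∧
    ∀ (ρ : ℕ) (α : ℝ), 0 ≤ α → α < 1 / 3 → ∀ u : ℕ → ℕ, Tendsto u atTop atTop →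
      (∀ᶠ j : ℕ in atTop, (u (j + 1) : ℝ) ≤ u j + (u j : ℝ) ^ α) →
      (∀ A β : ℝ, 0 < A →
        Tendsto (fun j : ℕ => (c (2 * u j + ρ) : ℝ) /
          (μ ^ (2 * u j + ρ) * (2 * (u j : ℝ) + ρ) ^ β)) atTop (𝓝 A) →
        Tendsto (fun k : ℕ => (c (2 * k + ρ) : ℝ) /
          (μ ^ (2 * k + ρ) * (2 * (k : ℝ) + ρ) ^ β)) atTop (𝓝 A)) ∧
      ∀ (q : ℕ) (β : ℝ) (a θ : Fin q → ℝ), (∀ i, 0 ≤ θ i) → ∀ M : ℝ, 0 ≤ M →
        (∃ C : ℝ, ∀ᶠ j : ℕ in atTop,
          |Real.log ((c (2 * u j + ρ) : ℝ) / μ ^ (2 * u j + ρ)) -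
            expansion q β a θ (2 * u j + ρ)| ≤ C * (u j : ℝ) ^ (-M)) →
        ∀ (s : ℕ) (b : ℝ), 0 ≤ b → b < 1 / 3 → ∃ C : ℝ, ∀ᶠ k : ℕ in atTop,
          |∑ i ∈ range (s + 1), (-1 : ℝ) ^ i * (s.choose i : ℝ) *
            (Real.log ((c (2 * k + ρ + 2 * i) : ℝ) / μ ^ (2 * k + ρ + 2 * i)) -
              expansion q β a θ (2 * k + ρ + 2 * i))| ≤ C * (k : ℝ) ^ (-(M + b * s)) := by
  obtain ⟨μ, hμ, hlim, K, h⟩ := Pool.Agent.Results.MP_794e6e_pr.AllOrders.result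
  refine ⟨μ, hμ, hlim, fun ρ α hα0 hα u hu hgap => ?_⟩
  have hc : ∀ n, (0 : ℝ) < c n := by
    intro n
    have hC : c n = Pool.Agent.H46R2.K3.c n := Pool.Agent.H46R2.K3.P.card_eq n
    rw [hC]
    exact_mod_cast lt_of_lt_of_le one_pos (Pool.Agent.H46R2.K3.P.dbl_c_pos n)
  have hreg := Pool.Agent.N226.SX.reg_of_third (f := fun n => Real.log ((c n : ℝ) / μ ^ n)) ρ K
    (fun r hr => by
      obtain ⟨C, hC⟩ := h r hr
      exact ⟨C, (eventually_ge_atTop 3).mono fun n hn => hC n hn⟩)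
  refine ⟨fun A β hA hval => ?_, fun q β a θ hθ M hM hval s b hb0 hb => ?_⟩
  · have h1 := Pool.Agent.N226.SX.form_two (P := fun n => (c n : ℝ) / μ ^ n) (by norm_num)
      (Eventually.of_forall fun n => div_pos (hc n) (pow_pos hμ n)) ρ hreg α hα0 hα u hu hgap β A hA
      (by simpa only [div_div] using hval)
    simpa only [div_div] using h1
  · exact Pool.Agent.N226.SX.main_two (by norm_num) (f := fun n => Real.log ((c n : ℝ) / μ ^ n))
      (g := fun n : ℕ => Pool.Agent.N226.SX.G q β a θ n) ρ hreg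
      (Pool.Agent.N226.SX.reg_G2 (1 / 3) (by norm_num) ρ q β a θ hθ) M α hM hα0 hα u hu hgap hval
      s b hb0 hb

end Pool.Agent.Results.MP_794e6e_pr.ExpansionsFromSparseLengths
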