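import Pool.Agent.N932.FL.Z3

/-!
# Rerouting a typical self-avoiding walk on `ℤ³` at all scales

For the uniform `n`-step self-avoiding walk `ω` on `ℤ³` from `0`: erase the positions at the times
in a set `S ⊆ {1, …, n}` and count the self-avoiding walks which agree with `ω` at all the other
times.  With probability at least `1 - exp (-x)` this number is between
`μ^|S| exp (-(cost + x))` and `μ^|S| exp (cost)` for all the `2^n` sets `S` simultaneously, where
`cost = K (b log n + exp (K (log log n)²) b^(2/3) n^(1/3))` and `b = b(S)` is the number of times at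
which the erasing starts or stops.
-/

set_option autoImplicit false

namespace Pool.Agent.Results.MP_794e6e_pr.Rerouting

open scoped Classical
open Filter Topology

/-- the self-avoiding walks on `ℤ³` with `n` steps from the origin -/
def walks (n : ℕ) : Set (Fin (n + 1) → (Fin 3 → ℤ)) :=
  {ω | ω 0 = 0 ∧ Function.Injective ω ∧ ∀ i : Fin n, ∑ j : Fin 3, |ω i.succ j - ω i.castSucc j| = 1}

/-- the self-avoiding walks which agree with `ω` at all the times outside `S` -/
def reroute {n : ℕ} (S : Finset ℕ) (ω : Fin (n + 1) → (Fin 3 → ℤ)) :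
    Set (Fin (n + 1) → (Fin 3 → ℤ)) :=
  {η ∈ walks n | ∀ i : Fin (n + 1), i.1 ∉ S → η i = ω i}

/-- The number of the times at which the erasing starts or stops: the number of `i ∈ {1, …, n}`
such that exactly one of `i - 1` and `i` is in `S`. -/
noncomputable def switches (n : ℕ) (S : Finset ℕ) : ℕ :=
  ((Finset.Icc 1 n).filter (fun i => ¬ (i ∈ S ↔ i - 1 ∈ S))).card

/-- The probability of `B` for the uniform walk with `n` steps. -/
noncomputable def prob (n : ℕ) (B : Set (Fin (n + 1) → (Fin 3 → ℤ))) : ℝ :=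
  (walks n ∩ B).ncard / (walks n).ncard

/-- the cost of `b` switches -/
noncomputable def cost (K : ℝ) (n : ℕ) (b : ℝ) : ℝ :=
  K * (b * Real.log n + Real.exp (K * Real.log (Real.log n) ^ 2) *
    (b ^ (2 / 3 : ℝ) * (n : ℝ) ^ (1 / 3 : ℝ)))

open Pool.Agent.N932.FL in
/-- **Rerouting at all scales on `ℤ³`.** The limit `μ` of `(c_n)^(1/n)` exists, and there is `K > 0`
such that for all `n ≥ 3`:
(1) for every self-avoiding walk `ω` with `n` steps and every set `S ⊆ {1, …, n}` of times, at most
`μ^|S| exp (cost K n (b(S)))` self-avoiding walks agree with `ω` at all times outside `S`;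
(2) for the uniform walk `ω` with `n` steps, with probability at least `1 - exp (-x)`, for ALL
nonempty sets `S ⊆ {1, …, n}` at once, at least `μ^|S| exp (-(cost K n (b(S)) + x))` self-avoiding
walks agree with `ω` at all times outside `S`. -/
theorem result : ∃ μ K : ℝ, 0 < μ ∧
    Tendsto (fun n : ℕ => ((walks n).ncard : ℝ) ^ (1 / (n : ℝ))) atTop (𝓝 μ) ∧ 0 < K ∧
    ∀ n : ℕ, 3 ≤ n →
      (∀ ω ∈ walks n, ∀ S : Finset ℕ, S ⊆ Finset.Icc 1 n →
        ((reroute S ω).ncard : ℝ) ≤ μ ^ S.card * Real.exp (cost K n (switches n S))) ∧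
      ∀ x : ℝ, prob n {ω | ¬ ∀ S : Finset ℕ, S ⊆ Finset.Icc 1 n → S.Nonempty →
        μ ^ S.card * Real.exp (-(cost K n (switches n S) + x)) ≤ (reroute S ω).ncard} ≤
          Real.exp (-x) := by
  obtain ⟨K, hK, h⟩ := z3_main
  have hμ := Pool.Agent.H46R2.K3.P.one_le_mu
  refine ⟨Pool.Agent.H46R2.K3.mu, K, by linarith, ?_, hK, fun n hn => ?_⟩
  · have hC : ∀ n, (walks n).ncard = Pool.Agent.H46R2.K3.c n := fun n => z3_card n
    simpa only [hC] using Pool.Agent.H46R2.K3.P.tendsto_c
  · obtain ⟨h1, h2⟩ := h n hn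
    refine ⟨h1, fun x => ?_⟩
    have h3 := h2 x
    rw [gprob_ncard (z3.finite n)] at h3
    exact h3

end Pool.Agent.Results.MP_794e6e_pr.Rerouting
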